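import Pool.Agent.H93.GT.Targets
import Pool.Agent.H89.SC.NOD

/-!
# (GND) the limit formula for a node (MP_de9001_an)
-/

set_option autoImplicit false

open Filter Topology

namespace Pool.Agent.H89.GT

open Pool.Agent.H93.GT Pool.Agent.H87.Synth Pool.Agent.H85.SC Finset
open Pool.Agent.H93.ET (sg jj iE iA T_KKL T_CUT T_BRK T_SER T_CRI)
open Pool.Agent.H89.SC (act_sub act_comp fun_poly slot_tendsto)

/-- the class sums of `coeff f z * Λ (ex z)` vanish -/
private theorem rls_of {d : ℕ → ℝ} (P : Pos d) {S : Set ℕ} {Λ : L1 →L[ℂ] ℂ} {f : L1}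
    (hK : P.Kl S Λ) (hf : P.Cst S f) : P.Rls S (fun z => coeff f z * Λ (ex z)) := by
  refine ⟨fun c => ?_, fun z hz => ?_⟩
  · rcases (P.cls S c).eq_empty_or_nonempty with h | ⟨z0, h0⟩
    · rw [h, Finset.sum_empty]
    · have h1 : ∀ z ∈ P.cls S c, coeff f z * Λ (ex z) = coeff f z0 * Λ (ex z) := by
        intro z hz
        rw [hf c z hz z0 h0]
      show ∑ z ∈ P.cls S c, coeff f z * Λ (ex z) = 0
      rw [Finset.sum_congr rfl h1, ← Finset.mul_sum, hK.1 c, mul_zero]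
  · show coeff f z * Λ (ex z) = 0
    rw [hK.2 z hz, mul_zero]

/-- the two groups of lines -/
private noncomputable def A1 (n a : ℕ) (z : ℤ) : ℂ :=
  ind (lr 1 n (2 * (((a : ℤ) + 1) % 2))) z + ind (lr 1 n (2 * (((a : ℤ) + 1) % 2) + 1)) z

private noncomputable def A2 (n a : ℕ) (z : ℤ) : ℂ :=
  ind (lr 1 n (2 * ((a : ℤ) % 2))) z + ind (lr 1 n (2 * ((a : ℤ) % 2) + 1)) z +
      ind (lr 1 n 4) z + ind (lr 1 n 5) z

private theorem A_sum (hL : ∀ n z, ind (inh n) z = ∑ e ∈ range 6, ind (lr 1 n e) z) (n a : ℕ)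
    (z : ℤ) : A1 n a z + A2 n a z = ind (inh n) z := by
  rw [hL]
  unfold A1 A2
  simp only [Finset.sum_range_succ, Finset.range_zero, Finset.sum_empty, zero_add,
    Nat.cast_zero, Nat.cast_one, Nat.cast_ofNat]
  rcases Int.emod_two_eq_zero_or_one (a : ℤ) with h | h
  · have h' : ((a : ℤ) + 1) % 2 = 1 := by omega
    rw [h, h']
    norm_num
    ring
  · have h' : ((a : ℤ) + 1) % 2 = 0 := by omega
    rw [h, h']
    norm_num
    ring

theorem gnd (h1 : T_GTL) (h2 : T_GSU) (h3 : T_GSX) (h4 : T_GVL) (h5 : T_GAM) (h6 : T_MUL)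
    (h7 : T_GSZ) (h8 : T_LNS) (h9 : T_GMV) : T_GND := by
  intro d P S hS Λ f hK hf n hn x y hx hy
  obtain ⟨hMnn, -, hMadd, -, -, -, -, hMex, hMbd, -⟩ := h6
  obtain ⟨hAlr, hAinh, hAing, -, hAtr, -⟩ := h5
  obtain ⟨-, hV0, -, hVM, hVL⟩ := h4 d P
  set g : ℤ → ℂ := fun z => coeff f z * Λ (ex z) with hg
  have hR : P.Rls S g := rls_of P hK hf
  -- the cut-offs of f
  choose F hF _ using fun r => hMex _ _ (hVM r).2 f
  have hA1 : ∀ a, MulB (A1 n a) (1 + 1) := fun a => hMadd _ _ _ _ (hAlr _ _ _) (hAlr _ _ _)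
  have hA2 : ∀ a, MulB (A2 n a) (1 + 1 + 1 + 1) := fun a =>
    hMadd _ _ _ _ (hMadd _ _ _ _ (hMadd _ _ _ _ (hAlr _ _ _) (hAlr _ _ _)) (hAlr _ _ _))
      (hAlr _ _ _)
  choose G1 hG1 _ using fun a r : ℕ => hMex _ _ (hA1 a) (F r)
  choose G2 hG2 _ using fun a r : ℕ => hMex _ _ (hA2 a) (F r)
  choose G3 hG3 _ using fun r : ℕ => hMex _ _ (hAing n) (F r)
  choose x1 hx1 _ using fun a : ℕ => hMex _ _ (hA1 a) f
  choose x2 hx2 _ using fun a : ℕ => hMex _ _ (hA2 a) f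
  have hxx : ∀ a, x1 a + x2 a = x := fun a => by
    refine ext_coeff fun z => ?_
    rw [coeff_add, hx1 a z, hx2 a z, hx z, ← add_mul, A_sum h8.1]
  obtain ⟨C, hC⟩ := hAtr n
  choose Q hQ _ using fun (a r : ℕ) => hMex _ _ (hC a) (F r - F (r - 1))
  have hC0 : 0 ≤ C := hMnn _ _ (hC 0)
  -- limits
  have limF : Tendsto F atTop (𝓝 f) := by
    rw [Metric.tendsto_atTop]
    intro ε hε
    obtain ⟨R, hR⟩ := hVL f ε hε
    exact ⟨R, fun r hr => by rw [dist_eq_norm]; exact hR r hr _ (hF r)⟩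
  have limN : Tendsto (fun r => ‖F r - f‖) atTop (𝓝 0) := tendsto_iff_norm_sub_tendsto_zero.1 limF
  have limN' : Tendsto (fun r => ‖F (r - 1) - f‖) atTop (𝓝 0) :=
    limN.comp (tendsto_sub_atTop_nat 1)
  have limD : Tendsto (fun r => C * ‖F r - F (r - 1)‖) atTop (𝓝 0) := by
    have h1 : Tendsto (fun r => F (r - 1)) atTop (𝓝 f) := limF.comp (tendsto_sub_atTop_nat 1)
    have h2 := ((limF.sub h1).norm).const_mul C
    rwa [sub_self, norm_zero, mul_zero] at h2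
  have hi1 : ∀ a : ℕ, a ≤ 2 ^ (a + 1) - 1 := fun a => by
    have := Nat.lt_two_pow_self (n := a + 1)
    omega
  have hi2 : ∀ a : ℕ, a ≤ 2 ^ a := fun a => Nat.lt_two_pow_self.le
  set W : ℕ → L1 := fun a => G1 a (slot n (2 ^ a) - 1) + G2 a (slot n (2 ^ a)) +
    G3 (slot n (2 ^ (a + 1) - 1)) with hW
  have limW : Tendsto W atTop (𝓝 (x + y)) := by
    rw [tendsto_iff_norm_sub_tendsto_zero]
    have t1 : Tendsto (fun a => (1 + 1 : ℝ) * ‖F (slot n (2 ^ a) - 1) - f‖) atTop (𝓝 0) := by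
      have := (limN'.comp (slot_tendsto n _ hi2)).const_mul (1 + 1 : ℝ)
      rwa [mul_zero] at this
    have t2 : Tendsto (fun a => (1 + 1 + 1 + 1 : ℝ) * ‖F (slot n (2 ^ a)) - f‖) atTop (𝓝 0) := by
      have := (limN.comp (slot_tendsto n _ hi2)).const_mul (1 + 1 + 1 + 1 : ℝ)
      rwa [mul_zero] at this
    have t3 : Tendsto (fun a => (1 : ℝ) * ‖F (slot n (2 ^ (a + 1) - 1)) - f‖) atTop (𝓝 0) := by
      have := (limN.comp (slot_tendsto n _ hi1)).const_mul (1 : ℝ)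
      rwa [mul_zero] at this
    have t := (t1.add t2).add t3
    rw [add_zero, add_zero] at t
    refine squeeze_zero (fun a => norm_nonneg _) (fun a => ?_) t
    have e1 : W a - (x + y) = (G1 a (slot n (2 ^ a) - 1) - x1 a) + (G2 a (slot n (2 ^ a)) - x2 a) +
        (G3 (slot n (2 ^ (a + 1) - 1)) - y) := by
      rw [hW, ← hxx a]
      simp only
      abel
    rw [e1]
    refine (norm_add_le _ _).trans (add_le_add ((norm_add_le _ _).trans (add_le_add ?_ ?_)) ?_)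
    · exact hMbd _ _ (hA1 a) _ _ (act_sub (hG1 a _) (hx1 a))
    · exact hMbd _ _ (hA2 a) _ _ (act_sub (hG2 a _) (hx2 a))
    · exact hMbd _ _ (hAing n) _ _ (act_sub (hG3 _) hy)
  have limW' : Tendsto (fun a => Λ (W a)) atTop (𝓝 (Λ (x + y))) :=
    (Λ.continuous.tendsto _).comp limW
  have limQ : Tendsto (fun a => Q a (slot n (2 ^ a))) atTop (𝓝 0) := by
    rw [tendsto_zero_iff_norm_tendsto_zero]
    exact squeeze_zero (fun a => norm_nonneg _) (fun a => hMbd _ _ (hC a) _ _ (hQ a _))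
      (limD.comp (slot_tendsto n _ hi2))
  have limQ' : Tendsto (fun a => Λ (Q a (slot n (2 ^ a)))) atTop (𝓝 0) := by
    have := (Λ.continuous.tendsto _).comp limQ
    rwa [map_zero] at this
  -- values
  have vW : ∀ a, Nat.size n ≤ a → Λ (W a) = P.gS g n (2 ^ a) - P.gI g n +
      ∑ b ∈ kids S n (a + 1), P.gE g (n + 2 ^ b) (2 ^ (b + 1)) := by
    intro a ha
    rw [← h1 d P S hS g hR n hn a ha, ← h2 d P S hS g hR.2 n hn a ha _ rfl]
    have hact : Act (P.MM n a) f (W a) := by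
      intro z
      rw [hW]
      simp only
      rw [coeff_add, coeff_add, hG1 a _ z, hG2 a _ z, hG3 _ z, hF _ z, hF _ z, hF _ z]
      unfold Pos.MM A1 A2
      ring
    exact fun_poly Λ hact _ fun z hz => (h9 d P n a ha).2.2 z hz
  have vQ : ∀ a, Nat.size n ≤ a → Λ (Q a (slot n (2 ^ a))) = P.gS g n (2 ^ a) := by
    intro a ha
    rw [← h3 d P S hS g hR.2 n hn a ha _ rfl]
    have hr1 : 1 ≤ slot n (2 ^ a) := by
      unfold slot
      have : 1 ≤ (2 ^ a) ^ 2 := Nat.one_le_pow _ _ (by positivity)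
      omega
    have h0 : Act (fun z => (P.VG (slot n (2 ^ a)) z : ℂ) - P.VG (slot n (2 ^ a) - 1) z) f
        (F (slot n (2 ^ a)) - F (slot n (2 ^ a) - 1)) := by
      intro z
      rw [coeff_sub, hF, hF]
      ring
    have hc := act_comp h0 (hQ a (slot n (2 ^ a)))
    refine fun_poly Λ hc _ fun z hz => ?_
    have hz4 : (P.X (slot n (2 ^ a) + 1) : ℤ) ≤ 4 * |z| := by
      have := abs_nonneg z
      omega
    have hz5 : (P.X (slot n (2 ^ a) - 1 + 1) : ℤ) ≤ 4 * |z| := by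
      have e3 : slot n (2 ^ a) - 1 + 1 = slot n (2 ^ a) := by omega
      rw [e3]
      have e4 := (h7 d P).2.1 (slot n (2 ^ a))
      have e5 : (P.X (slot n (2 ^ a)) : ℤ) ≤ P.X (slot n (2 ^ a) + 1) := by
        exact_mod_cast (by omega)
      exact e5.trans hz4
    rw [hV0 _ z hz4, hV0 _ z hz5]
    simp
  have main : ∀ a, Nat.size n ≤ a → ∑ b ∈ kids S n (a + 1), P.gE g (n + 2 ^ b) (2 ^ (b + 1)) =
      Λ (W a) + P.gI g n - Λ (Q a (slot n (2 ^ a))) := by
    intro a ha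
    rw [vW a ha, vQ a ha]
    ring
  rw [← tendsto_add_atTop_iff_nat 1]
  have hfin : Tendsto (fun a => Λ (W a) + P.gI g n - Λ (Q a (slot n (2 ^ a)))) atTop
      (𝓝 (Λ x + Λ y + P.gI g n)) := by
    have := (limW'.add_const (P.gI g n)).sub limQ'
    rwa [sub_zero, map_add] at this
  refine hfin.congr' ?_
  filter_upwards [eventually_ge_atTop (Nat.size n)] with a ha
  exact (main a ha).symm

end Pool.Agent.H89.GT
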